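import Pool.Agent.L0h38.GI.Stm3
import Pool.Agent.L0h48.GI.MAX

/-! Project GI2, module MA2 (helper48's module MAX with the weaker hypothesis `Ok3`). -/

set_option autoImplicit false

namespace Pool.Agent.L0h84.GI

open Pool.Agent.L0h38.GI Pool.Agent.L0h48.GI

/-- the image of an FA clique -/
theorem image3 (h2 : S_CLQ) (h3 : S_FAI) (h4 : S_FAQ) (h5 : S_ELL)
    {V W : Type} [Finite V] [Finite W] {Γ : SimpleGraph V} {Δ : SimpleGraph W}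
    {G : V → Type} {H : W → Type} [∀ v, Group (G v)] [∀ w, Group (H w)]
    (hH : ∀ w, Ok3 (H w)) (e : GrP Γ G ≃* GrP Δ H) (K : Set V) (hK : Γ.IsClique K)
    (hFA : ∀ v ∈ K, FA (G v)) : ∃ (g : GrP Δ H) (K' : Set W), MaxF Δ H K' ∧
      ∀ y ∈ P Γ G K, g⁻¹ * e y * g ∈ P Δ H K' := by
  obtain ⟨g, K1, hc, hfa, hg⟩ := h5 W Δ H (fun w => (hH w).1) (P Γ G K)
    (fa_P h2 h3 h4 hK (Set.toFinite K) hFA) (e.toMonoidHom.comp (P Γ G K).subtype)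
  obtain ⟨K', hK', hle⟩ := exists_max Δ H K1 hc hfa
  exact ⟨g, K', hK', fun y hy => P_mono hle (hg ⟨y, hy⟩)⟩

theorem t_MA2 (h1 : S_RET) (h2 : S_CLQ) (h3 : S_FAI) (h4 : S_FAQ) (h5 : S_ELL) : S_MA2 := by
  intro V W _ _ Γ Δ G H _ _ hG hH e K hK
  obtain ⟨g, K', hK', hg⟩ := image3 h2 h3 h4 h5 hH e K hK.1.1 hK.1.2
  obtain ⟨g2, K2, hK2, hg2⟩ := image3 h2 h3 h4 h5 hG e.symm K' hK'.1.1 hK'.1.2
  set u := e.symm g * g2 with hu
  have hcomp : ∀ y, g2⁻¹ * e.symm (g⁻¹ * e y * g) * g2 = u⁻¹ * y * u := by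
    intro y
    rw [map_mul, map_mul, map_inv, MulEquiv.symm_apply_apply, hu]
    group
  have hKu : ∀ x ∈ P Γ G K, u⁻¹ * x * u ∈ P Γ G K2 := by
    intro x hx
    rw [← hcomp]
    exact hg2 _ (hg x hx)
  have hsub : K ⊆ K2 := by
    intro v hv
    by_contra hv2
    obtain ⟨a, ha⟩ := (hG v).2
    have h6 := (h1 V Γ G K2 K2).2.2.2.2.2 _ (hKu _ (inj_mem hv a)) v hv2
    rw [map_mul, map_mul, map_inv] at h6
    have h7 : (toPi u v)⁻¹ * toPi (inj Γ G v a) v * toPi u v = 1 := h6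
    rw [toPi_inj_same] at h7
    apply ha
    have h8 : a = toPi u v * ((toPi u v)⁻¹ * a * toPi u v) * (toPi u v)⁻¹ := by group
    rw [h8, h7]
    group
  have hKK : K2 = K := hK.2 K2 hK2.1.1 hK2.1.2 hsub
  rw [hKK] at hKu hg2
  refine ⟨K', hK', g, fun y => ⟨hg y, fun hy => ?_⟩⟩
  have h6 := hg2 _ hy
  rw [hcomp] at h6
  have h7 := conj_eq h1 K u hKu _ h6
  have h8 : u * (u⁻¹ * y * u) * u⁻¹ = y := by group
  rw [h8] at h7
  exact h7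

end Pool.Agent.L0h84.GI
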