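import Pool.Agent.L0h38.GI.Stm3

/-! Project GI2, module MOB. -/

set_option autoImplicit false

namespace Pool.Agent.L0h84.GI

open Pool.Agent.L0h38.GI

/-- the elements above `x`, by their values -/
def aboveEquiv {E ι : Type} [PartialOrder E] (a : ι → E) (x : E) :
    {i // x < a i} ≃ Σ y : {y : E // x < y}, {i // a i = y.1} where
  toFun i := ⟨⟨a i.1, i.2⟩, ⟨i.1, rfl⟩⟩
  invFun z := ⟨z.2.1, by rw [z.2.2]; exact z.1.2⟩
  left_inv i := rfl
  right_inv := by
    have h : ∀ (y : E) (hy : x < y) (i : ι) (hi : a i = y),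
        (⟨⟨a i, by rw [hi]; exact hy⟩, ⟨i, rfl⟩⟩ : Σ y : {y : E // x < y}, {i // a i = y.1}) =
          ⟨⟨y, hy⟩, ⟨i, hi⟩⟩ := by
      intro y hy i hi
      subst hi
      rfl
    rintro ⟨⟨y, hy⟩, ⟨i, hi⟩⟩
    exact h y hy i hi

theorem card_le {E ι : Type} [PartialOrder E] [Finite ι] (a : ι → E) (x : E) :
    Nat.card {i // x ≤ a i} = Nat.card {i // a i = x} + Nat.card {i // x < a i} := by
  classical
  rw [← Nat.card_sum]
  apply Nat.card_congr
  refine ⟨fun i => if h : a i.1 = x then Sum.inl ⟨i.1, h⟩ else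
      Sum.inr ⟨i.1, lt_of_le_of_ne i.2 fun h' => h h'.symm⟩,
    fun z => z.elim (fun i => ⟨i.1, i.2.ge⟩) fun i => ⟨i.1, i.2.le⟩, fun i => ?_, fun z => ?_⟩
  · by_cases h : a i.1 = x
    · simp [h]
    · simp [h]
  · rcases z with ⟨i, hi⟩ | ⟨i, hi⟩
    · simp [hi]
    · simp [hi.ne']

theorem lt_of_value {E ι : Type} [PartialOrder E] [Finite ι] (a : ι → E) {x y : E} (hy : x < y)
    (h : ∃ i, a i = y) : Nat.card {i // y < a i} < Nat.card {i // x < a i} := by
  obtain ⟨i, hi⟩ := h
  have h1 : {i | y < a i} ⊂ {i | x < a i} := by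
    have h2 : {i | y < a i} ⊆ {i | x < a i} := fun j hj => hy.trans hj
    refine (Set.ssubset_iff_of_subset h2).2 ⟨i, ?_, ?_⟩
    · show x < a i
      rw [hi]; exact hy
    · show ¬ y < a i
      rw [hi]; exact lt_irrefl y
  exact (Set.toFinite {i | x < a i}).card_lt_card h1

theorem le_of_value {E ι : Type} [PartialOrder E] [Finite ι] (a : ι → E) {x y : E} (hy : x < y) :
    Nat.card {i // y < a i} ≤ Nat.card {i // x < a i} :=
  Nat.card_le_card_of_injective (fun i : {i // y < a i} => (⟨i.1, hy.trans i.2⟩ : {i // x < a i}))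
    (fun _ _ hij => Subtype.ext (congrArg (fun z : {i // x < a i} => z.1) hij))

/-- finite types of the same size -/
noncomputable def eqv {A B : Type} [Finite A] [Finite B] (h : Nat.card A = Nat.card B) : A ≃ B :=
  (Finite.equivFin A).trans ((finCongr h).trans (Finite.equivFin B).symm)

theorem t_MOB : S_MOB := by
  intro E ι κ _ _ _ a b h
  classical
  have key : ∀ n : ℕ, ∀ x : E, Nat.card {i // x < a i} + Nat.card {j // x < b j} = n →
      Nat.card {i // a i = x} = Nat.card {j // b j = x} := by
    intro n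
    induction n using Nat.strong_induction_on with
    | _ n ih =>
      intro x hx
      have hup : ∀ y : {y : E // x < y}, Nat.card {i // a i = y.1} = Nat.card {j // b j = y.1} := by
        rintro ⟨y, hy⟩
        by_cases hv : (∃ i, a i = y) ∨ (∃ j, b j = y)
        · refine ih _ ?_ y rfl
          rw [← hx]
          have hA := le_of_value a hy
          have hB := le_of_value b hy
          rcases hv with hi | hj
          · have := lt_of_value a hy hi
            omega
          · have := lt_of_value b hy hj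
            omega
        · push Not at hv
          have h1 : IsEmpty {i // a i = y} := ⟨fun i => hv.1 i.1 i.2⟩
          have h2 : IsEmpty {j // b j = y} := ⟨fun j => hv.2 j.1 j.2⟩
          rw [Nat.card_of_isEmpty, Nat.card_of_isEmpty]
      by_cases hv : (∃ i, a i = x) ∨ (∃ j, b j = x)
      · have h1 := h x hv
        rw [card_le, card_le] at h1
        have h2 : Nat.card {i // x < a i} = Nat.card {j // x < b j} := by
          refine Nat.card_congr ((aboveEquiv a x).trans (Equiv.trans ?_ (aboveEquiv b x).symm))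
          exact Equiv.sigmaCongrRight fun y => eqv (hup y)
        omega
      · push Not at hv
        have h1 : IsEmpty {i // a i = x} := ⟨fun i => hv.1 i.1 i.2⟩
        have h2 : IsEmpty {j // b j = x} := ⟨fun j => hv.2 j.1 j.2⟩
        rw [Nat.card_of_isEmpty, Nat.card_of_isEmpty]
  let F : ∀ x : E, {i // a i = x} ≃ {j // b j = x} := fun x => eqv (key _ x rfl)
  refine ⟨(Equiv.sigmaFiberEquiv a).symm.trans ((Equiv.sigmaCongrRight F).trans
    (Equiv.sigmaFiberEquiv b)), fun i => ?_⟩
  exact (F (a i) ⟨i, rfl⟩).2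

end Pool.Agent.L0h84.GI
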