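import Pool.Agent.L0h38.GI.Stm3

/-! Project GI2, module MU. -/

set_option autoImplicit false

namespace Pool.Agent.L0h84.GI

open Pool.Agent.L0h38.GI

/-- a conjugate of `P K` can be contained in `P K'` only if `K ⊆ K'` -/
theorem sub_of_conj (h1 : S_RET) {V : Type} {Γ : SimpleGraph V} {G : V → Type}
    [∀ v, Group (G v)] (hG : ∀ v, Ok3 (G v)) (K K' : Set V) (u : GrP Γ G)
    (hu : ∀ x ∈ P Γ G K, u⁻¹ * x * u ∈ P Γ G K') : K ⊆ K' := by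
  intro v hv
  by_contra hv2
  obtain ⟨a, ha⟩ := (hG v).2
  have h6 := (h1 V Γ G K' K').2.2.2.2.2 _ (hu _ (inj_mem hv a)) v hv2
  rw [map_mul, map_mul, map_inv] at h6
  have h7 : (toPi u v)⁻¹ * toPi (inj Γ G v a) v * toPi u v = 1 := h6
  rw [toPi_inj_same] at h7
  apply ha
  have h8 : a = toPi u v * ((toPi u v)⁻¹ * a * toPi u v) * (toPi u v)⁻¹ := by group
  rw [h8, h7]
  group

/-- going forth and back -/
theorem back (h1 : S_RET) {V W : Type} {Γ : SimpleGraph V} {Δ : SimpleGraph W}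
    {G : V → Type} {H : W → Type} [∀ v, Group (G v)] [∀ w, Group (H w)]
    (hG : ∀ v, Ok3 (G v)) (e : GrP Γ G ≃* GrP Δ H) (K K2 : Set V) (K' : Set W)
    (g : GrP Δ H) (hg : ∀ y, y ∈ P Γ G K ↔ g⁻¹ * e y * g ∈ P Δ H K')
    (g2 : GrP Γ G) (hg2 : ∀ z, z ∈ P Δ H K' ↔ g2⁻¹ * e.symm z * g2 ∈ P Γ G K2) : K2 = K := by
  set u := e.symm g * g2 with hu
  have hcomp : ∀ y, g2⁻¹ * e.symm (g⁻¹ * e y * g) * g2 = u⁻¹ * y * u := by
    intro y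
    rw [map_mul, map_mul, map_inv, MulEquiv.symm_apply_apply, hu]
    group
  have hiff : ∀ y, y ∈ P Γ G K ↔ u⁻¹ * y * u ∈ P Γ G K2 := by
    intro y
    rw [hg, hg2, hcomp]
  apply le_antisymm
  · apply sub_of_conj h1 hG K2 K u⁻¹
    intro x hx
    rw [inv_inv, hiff]
    have : u⁻¹ * (u * x * u⁻¹) * u = x := by group
    rw [this]
    exact hx
  · exact sub_of_conj h1 hG K K2 u fun x hx => (hiff x).1 hx

theorem t_MU (h1 : S_RET) (h2 : S_MA2) : S_MU := by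
  intro V W _ _ Γ Δ G H _ _ hG hH e
  have hf : ∀ K : {K // MaxF Γ G K}, ∃ K' : {K // MaxF Δ H K}, ∃ g, ∀ y,
      y ∈ P Γ G K.1 ↔ g⁻¹ * e y * g ∈ P Δ H K'.1 := by
    rintro ⟨K, hK⟩
    obtain ⟨K', hK', h⟩ := h2 V W Γ Δ G H hG hH e K hK
    exact ⟨⟨K', hK'⟩, h⟩
  have hb : ∀ K' : {K // MaxF Δ H K}, ∃ K : {K // MaxF Γ G K}, ∃ g, ∀ z,
      z ∈ P Δ H K'.1 ↔ g⁻¹ * e.symm z * g ∈ P Γ G K.1 := by
    rintro ⟨K, hK⟩
    obtain ⟨K', hK', h⟩ := h2 W V Δ Γ H G hH hG e.symm K hK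
    exact ⟨⟨K', hK'⟩, h⟩
  choose f hf using hf
  choose b hb using hb
  refine ⟨⟨f, b, fun K => ?_, fun K => ?_⟩, hf⟩
  · obtain ⟨g, hg⟩ := hf K
    obtain ⟨g2, hg2⟩ := hb (f K)
    exact Subtype.ext (back h1 hG e K.1 (b (f K)).1 (f K).1 g hg g2 hg2)
  · obtain ⟨g, hg⟩ := hb K
    obtain ⟨g2, hg2⟩ := hf (b K)
    exact Subtype.ext (back h1 hH e.symm K.1 (f (b K)).1 (b K).1 g hg g2 hg2)

end Pool.Agent.L0h84.GI
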